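import Pool.Agent.TH819.PM.All3

/-! Lower bounds for all moments of order `p > 1`, about every centre, of primes in the reduced
residue classes modulo `K`, for every modulus `K` in a range. -/

open Finset

namespace Pool.Agent.Results.MP_5dd4bb_nt.MomentsEveryModulus

/-- For every integer `m ≥ 2` and `δ > 0` there are `c > 0` and `X₀` such that for all real
`X ≥ X₀` and all integers `K ≤ X` with `X ≤ K X ^ (1 / (2 m) - δ)`: for every real centre `y` and
every real `p ≥ 2m / (2m - 1)` the sum of `|ψ(X;K,A) - y| ^ p` over the reduced residue classes `A`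
modulo `K` is at least `φ(K) (c √((X/φ(K)) (1 + log(X/K)))) ^ p`. -/
theorem result : ∀ m : ℕ, 2 ≤ m → ∀ δ : ℝ, 0 < δ → ∃ c X₀ : ℝ, 0 < c ∧
    ∀ X : ℝ, X₀ ≤ X → ∀ K : ℕ, (K : ℝ) ≤ X → X ≤ K * X ^ (1 / (2 * (m : ℝ)) - δ) →
    ∀ y p : ℝ, 2 * (m : ℝ) / (2 * m - 1) ≤ p →
      Nat.totient K * (c * Real.sqrt (X / Nat.totient K * (1 + Real.log (X / K)))) ^ p ≤
        ∑ A ∈ (range K).filter (fun A => A.Coprime K),
          |(∑ n ∈ (Icc 1 ⌊X⌋₊).filter (fun n => n ≡ A [MOD K]),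
            ArithmeticFunction.vonMangoldt n) - y| ^ p := by
  intro m hm δ hδ
  obtain ⟨c, X₀, hc, h⟩ := TH819.PM.ap_all3 m hm δ hδ
  exact ⟨c, X₀, hc, fun X hX K h1 h2 => (h X hX K h1 h2).2.2⟩

end Pool.Agent.Results.MP_5dd4bb_nt.MomentsEveryModulus
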